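import Pool.Agent.V1150.TP.M

/-!
A regular graded skew Clifford algebra of global dimension four with exactly two point modules.
-/

set_option autoImplicit false

universe u

namespace Pool.Agent.Results.MP_a6a2ff_al.TwoPoints

open Pool.Agent.W506.PM

/-- `A(mu; M_1, ..., M_4)` is a graded skew Clifford algebra, is a quadratic algebra, is
Artin-Schelter regular of global dimension four, and has exactly `N` isomorphism classes of point
modules. -/
structure RegularWithPoints (k : Type u) [Field k] (μ : Fin 4 → Fin 4 → k)
    (M : Fin 4 → Matrix (Fin 4) (Fin 4) k) (N : ℕ) : Prop where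
  gsca : IsGSCA k μ M
  quadratic : IsQuadratic (ggr k μ M)
  regular : IsASRegular (ggr k μ M) 4
  card : Nat.card (PointClasses (ggr k μ M)) = N

/-- Over every field `k` with `2 ≠ 0` and `5 ≠ 0` in which `-1` is a square, in particular over
every algebraically closed field of characteristic different from `2` and `5`, there is a graded
skew Clifford algebra (with all `mu_ij = 1` and central `y_1, ..., y_4`, that is, a graded Clifford
algebra) which is quadratic and Artin-Schelter regular of global dimension four and has exactly
2 isomorphism classes of point modules. -/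
theorem result (k : Type u) [Field k] (h2 : (2 : k) ≠ 0) (h5 : (5 : k) ≠ 0)
    (hj : IsSquare (-1 : k)) :
    ∃ M : Fin 4 → Matrix (Fin 4) (Fin 4) k,
      RegularWithPoints k (fun _ _ => 1) M 2 ∧ ∀ l u, Commute u (gy k (fun _ _ => 1) M l) := by
  obtain ⟨j, hj⟩ := hj
  have hj2 : j ^ 2 = -1 := by rw [sq]; exact hj.symm
  obtain ⟨e1, e2, e3, e4, e5⟩ := Pool.Agent.V1150.TP.mainT j h2 h5 hj2
  exact ⟨Pool.Agent.V1150.TP.MT j, ⟨e1, e3, e4, e5⟩, e2⟩

end Pool.Agent.Results.MP_a6a2ff_al.TwoPoints
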